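import Pool.Agent.Lib.MP_7cf8a2_an.Main

/-! Translation between subsets of `ℝ^k` and subsets of the submodule `E^s`. -/

set_option autoImplicit false

noncomputable section

namespace Pool.Agent.Lib.MP_7cf8a2_an

open Set Filter Topology
open scoped ENNReal

variable {k : ℕ} (M : Matrix (Fin k) (Fin k) ℤ) (l : ℝ)

lemma act_apply (x : V k) (i : Fin k) : (act M x) i = ∑ j, (M i j : ℝ) * x j := by
  simp [act, Matrix.toEuclideanLin, Matrix.mulVec, dotProduct]

lemma Es_eq : Es M l = (sEs M l : Set (V k)) := by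
  ext x
  simp only [Es, sEs, SetLike.mem_coe, LinearMap.mem_range]
  constructor
  · rintro ⟨y, hy⟩
    refine ⟨y, ?_⟩
    ext i
    rw [hy i, ← act_apply]
    simp
  · rintro ⟨y, rfl⟩
    refine ⟨y, fun i => ?_⟩
    rw [← act_apply]
    simp

lemma Eu_eq : Eu M l = (sEu M l : Set (V k)) := by
  ext x
  simp only [Eu, sEu, SetLike.mem_coe, LinearMap.mem_ker]
  constructor
  · intro hx
    ext i
    have := hx i
    rw [← act_apply] at this
    simp [this]
  · intro hx i
    rw [← act_apply]
    have : (act M x - l • x) i = 0 := by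
      have h2 : act M x - l • x = 0 := by simpa using hx
      rw [h2]; rfl
    simpa [sub_eq_zero] using this

variable {M l}

lemma isProj_iff (h : IsCompl (sEs M l) (sEu M l)) (x y : V k) :
    IsProj M l x y ↔ y = (Submodule.projectionOnto (sEs M l) (sEu M l) h x : V k) := by
  unfold IsProj
  rw [Es_eq, Eu_eq]
  constructor
  · rintro ⟨h1, h2⟩
    have e : Submodule.projectionOnto (sEs M l) (sEu M l) h x =
        Submodule.projectionOnto (sEs M l) (sEu M l) h y := by
      have h3 : Submodule.projectionOnto (sEs M l) (sEu M l) h (x - y) = 0 :=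
        (Submodule.projectionOnto_apply_eq_zero_iff h).2 h2
      rw [map_sub, sub_eq_zero] at h3
      exact h3
    rw [e]
    have := Submodule.projectionOnto_apply_left h ⟨y, h1⟩
    rw [this]
  · rintro rfl
    refine ⟨Subtype.property _, ?_⟩
    have : x - (Submodule.projectionOnto (sEs M l) (sEu M l) h x : V k) ∈ sEu M l := by
      rw [← Submodule.projectionOnto_apply_eq_zero_iff h, map_sub,
        Submodule.projectionOnto_apply_left, sub_self]
    exact this

lemma isClosedEmb (M : Matrix (Fin k) (Fin k) ℤ) (l : ℝ) :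
    IsClosedEmbedding (Subtype.val : sEs M l → V k) :=
  (Submodule.closed_of_finiteDimensional (sEs M l)).isClosedEmbedding_subtypeVal

lemma rauzy_val (h : IsCompl (sEs M l) (sEu M l)) (u : ℤ → Fin k) :
    rauzy M l u = Subtype.val '' srauzy h u := by
  unfold rauzy srauzy
  have : {y | ∃ n : ℤ, IsProj M l (L u n) y} = Subtype.val '' (Set.range fun n : ℤ =>
      Submodule.projectionOnto (sEs M l) (sEu M l) h (L u n)) := by
    ext y
    simp only [isProj_iff h]
    constructor
    · rintro ⟨n, rfl⟩; exact ⟨_, ⟨n, rfl⟩, rfl⟩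
    · rintro ⟨_, ⟨n, rfl⟩, rfl⟩; exact ⟨n, rfl⟩
  rw [this]
  exact (isClosedEmb M l).closure_image_eq _

lemma bd_val (A : Set (sEs M l)) : bd M l (Subtype.val '' A) = Subtype.val '' frontier A := by
  unfold bd
  have h1 : Es M l \ (Subtype.val '' A) = Subtype.val '' (Aᶜ : Set (sEs M l)) := by
    rw [Es_eq]
    ext x
    constructor
    · rintro ⟨hx, hxA⟩
      exact ⟨⟨x, hx⟩, fun hA => hxA ⟨_, hA, rfl⟩, rfl⟩
    · rintro ⟨y, hy, rfl⟩
      refine ⟨y.2, ?_⟩
      rintro ⟨z, hz, hzy⟩
      exact hy (by rwa [← Subtype.ext hzy])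
  rw [h1, (isClosedEmb M l).closure_image_eq, (isClosedEmb M l).closure_image_eq,
    ← image_inter Subtype.val_injective, ← frontier_eq_closure_inter_closure]

lemma bdDim_val (A : Set (sEs M l)) : bdDim M l (Subtype.val '' A) = dimH (frontier A) := by
  unfold bdDim
  rw [bd_val]
  exact isometry_subtype_coe.dimH_image _

theorem final {u u' : ℤ → Fin 2} (hu : IsFixedPoint sig u) (hu' : IsFixedPoint (rev sig) u') :
    rauzy (inc sig) lam u ∩ rauzy (inc sig) lam u' = {0} ∧
      bdDim (inc sig) lam (rauzy (inc sig) lam u ∩ rauzy (inc sig) lam u') = 0 ∧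
      1 / 6 ≤ bdDim (inc sig) lam (rauzy (inc sig) lam u) := by
  obtain ⟨h1, h2, h3⟩ := main isCompl hu hu'
  rw [rauzy_val isCompl u, rauzy_val isCompl u', ← image_inter Subtype.val_injective,
    bdDim_val, bdDim_val]
  refine ⟨?_, h2, h3⟩
  rw [h1]; simp

theorem splits (x : V 2) : ∃! y, IsProj (inc sig) lam x y := by
  simp only [isProj_iff isCompl]
  exact ⟨_, rfl, fun y hy => hy⟩

end Pool.Agent.Lib.MP_7cf8a2_an
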