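import Pool.Agent.Lib.MP_7cf8a2_an.Sub

/-! Real-line analysis of the fixed points of `a ↦ aabbb, b ↦ abb`. -/

set_option autoImplicit false

noncomputable section

namespace Pool.Agent.Lib.MP_7cf8a2_an

open Set Filter Topology

/-- The contracting eigenvalue. -/
def th : ℝ := 2 - √3
/-- Value of the letter `b`. -/
def w : ℝ := -(√3 / 3)
/-- Values of the letters. -/
def v : Fin 2 → ℝ := ![1, w]

lemma sq3 : √3 * √3 = 3 := Real.mul_self_sqrt (by norm_num)
lemma s3_lo : (1.732 : ℝ) < √3 := by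
  rw [Real.lt_sqrt (by norm_num)]; norm_num
lemma s3_hi : √3 < (1.7321 : ℝ) := by
  rw [Real.sqrt_lt' (by norm_num)]; norm_num
lemma th_lo : (0.2679 : ℝ) < th := by unfold th; linarith [s3_hi]
lemma th_hi : th < (0.268 : ℝ) := by unfold th; linarith [s3_lo]
lemma th_pos : 0 < th := by linarith [th_lo]
lemma w_lo : (-0.57737 : ℝ) < w := by unfold w; linarith [s3_hi]
lemma w_hi : w < (-0.5773 : ℝ) := by unfold w; linarith [s3_lo]
/-- value of `σ a` -/
lemma val_a : 2 + 3 * w = th := by unfold w th; ring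
/-- value of `σ b` -/
lemma val_b : 1 + 2 * w = th * w := by
  unfold w th; nlinarith [sq3]

lemma sig0 : sig 0 = [0, 0, 1, 1, 1] := rfl
lemma sig1 : sig 1 = [0, 1, 1] := rfl

/-- Position function. -/
def Z (u : ℤ → Fin 2) (n : ℤ) : ℝ :=
  ∑ i ∈ Finset.Ico 0 n, v (u i) - ∑ i ∈ Finset.Ico n 0, v (u i)

lemma Z_zero (u : ℤ → Fin 2) : Z u 0 = 0 := by simp [Z]

lemma Z_succ (u : ℤ → Fin 2) (n : ℤ) : Z u (n + 1) = Z u n + v (u n) := by
  unfold Z
  rcases le_or_gt 0 n with h | h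
  · have h1 : Finset.Ico (n + 1) 0 = ∅ := Finset.Ico_eq_empty (by omega)
    have h2 : Finset.Ico n 0 = ∅ := Finset.Ico_eq_empty (by omega)
    have h3 : Finset.Ico 0 (n + 1) = insert n (Finset.Ico 0 n) := by
      ext i; simp only [Finset.mem_Ico, Finset.mem_insert]; omega
    rw [h1, h2, h3, Finset.sum_insert (by simp)]
    simp; ring
  · have h1 : Finset.Ico 0 (n + 1) = ∅ := Finset.Ico_eq_empty (by omega)
    have h2 : Finset.Ico 0 n = ∅ := Finset.Ico_eq_empty (by omega)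
    have h3 : Finset.Ico n 0 = insert n (Finset.Ico (n + 1) 0) := by
      ext i; simp only [Finset.mem_Ico, Finset.mem_insert]; omega
    rw [h1, h2, h3, Finset.sum_insert (by simp)]
    simp

/-- The data of a fixed point. -/
structure FP (u : ℤ → Fin 2) (c : ℤ → ℤ) : Prop where
  c0 : c 0 = 0
  cs : ∀ m : ℤ, c (m + 1) = c m + (sig (u m)).length
  us : ∀ (m : ℤ) (j : ℕ) (h : j < (sig (u m)).length), u (c m + j) = (sig (u m))[j]

variable {u : ℤ → Fin 2} {c : ℤ → ℤ}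

lemma FP.stepa (h : FP u c) {m : ℤ} (hm : u m = 0) :
    c (m + 1) = c m + 5 ∧ u (c m) = 0 ∧ u (c m + 1) = 0 ∧ u (c m + 2) = 1 ∧ u (c m + 3) = 1 ∧
      u (c m + 4) = 1 := by
  have h1 := h.cs m
  have h2 := h.us m
  simp only [hm, sig0] at h1 h2
  refine ⟨by simpa using h1, ?_, ?_, ?_, ?_, ?_⟩
  · simpa using h2 0 (by simp)
  · simpa using h2 1 (by simp)
  · simpa using h2 2 (by simp)
  · simpa using h2 3 (by simp)
  · simpa using h2 4 (by simp)

lemma FP.stepb (h : FP u c) {m : ℤ} (hm : u m = 1) :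
    c (m + 1) = c m + 3 ∧ u (c m) = 0 ∧ u (c m + 1) = 1 ∧ u (c m + 2) = 1 := by
  have h1 := h.cs m
  have h2 := h.us m
  simp only [hm, sig1] at h1 h2
  refine ⟨by simpa using h1, ?_, ?_, ?_⟩
  · simpa using h2 0 (by simp)
  · simpa using h2 1 (by simp)
  · simpa using h2 2 (by simp)

lemma v0 : v 0 = 1 := rfl
lemma v1 : v 1 = w := rfl

lemma letter (x : Fin 2) : x = 0 ∨ x = 1 := by fin_cases x <;> simp

lemma FP.Za (h : FP u c) {m : ℤ} (hm : u m = 0) :
    Z u (c m + 1) = Z u (c m) + 1 ∧ Z u (c m + 2) = Z u (c m) + 2 ∧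
    Z u (c m + 3) = Z u (c m) + 2 + w ∧ Z u (c m + 4) = Z u (c m) + 2 + 2 * w ∧
    Z u (c m + 5) = Z u (c m) + 2 + 3 * w := by
  obtain ⟨-, h0, h1, h2, h3, h4⟩ := h.stepa hm
  have e1 := Z_succ u (c m)
  have e2 := Z_succ u (c m + 1)
  have e3 := Z_succ u (c m + 2)
  have e4 := Z_succ u (c m + 3)
  have e5 := Z_succ u (c m + 4)
  rw [h0, v0] at e1
  rw [h1, v0, add_assoc] at e2
  rw [h2, v1, add_assoc] at e3
  rw [h3, v1, add_assoc] at e4
  rw [h4, v1, add_assoc] at e5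
  norm_num at e2 e3 e4 e5
  refine ⟨e1, ?_, ?_, ?_, ?_⟩ <;> linarith

lemma FP.Zb (h : FP u c) {m : ℤ} (hm : u m = 1) :
    Z u (c m + 1) = Z u (c m) + 1 ∧ Z u (c m + 2) = Z u (c m) + 1 + w ∧
    Z u (c m + 3) = Z u (c m) + 1 + 2 * w := by
  obtain ⟨-, h0, h1, h2⟩ := h.stepb hm
  have e1 := Z_succ u (c m)
  have e2 := Z_succ u (c m + 1)
  have e3 := Z_succ u (c m + 2)
  rw [h0, v0] at e1
  rw [h1, v1, add_assoc] at e2
  rw [h2, v1, add_assoc] at e3
  norm_num at e2 e3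
  refine ⟨e1, ?_, ?_⟩ <;> linarith

lemma FP.cs_bounds (h : FP u c) (m : ℤ) : c m + 3 ≤ c (m + 1) := by
  rcases letter (u m) with hm | hm
  · rw [(h.stepa hm).1]; omega
  · rw [(h.stepb hm).1]

lemma FP.Zc (h : FP u c) (m : ℤ) : Z u (c m) = th * Z u m := by
  have key : ∀ m : ℤ, Z u (c (m + 1)) - th * Z u (m + 1) = Z u (c m) - th * Z u m := by
    intro m
    rw [Z_succ u m]
    rcases letter (u m) with hm | hm
    · rw [(h.stepa hm).1, (h.Za hm).2.2.2.2, hm, v0]; linarith [val_a]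
    · rw [(h.stepb hm).1, (h.Zb hm).2.2, hm, v1]; linarith [val_b]
  have : Z u (c m) - th * Z u m = 0 := by
    induction m using Int.induction_on with
    | zero => rw [h.c0, Z_zero]; ring
    | succ n ih => rw [key]; exact ih
    | pred n ih => rw [← key]; simpa using ih
  linarith

lemma FP.c_ge (h : FP u c) (m : ℕ) : 3 * (m : ℤ) ≤ c m := by
  induction m with
  | zero => simp [h.c0]
  | succ n ih => have := h.cs_bounds n; push_cast; omega

lemma FP.c_le (h : FP u c) (m : ℕ) : c (-(m : ℤ)) ≤ -3 * (m : ℤ) := by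
  induction m with
  | zero => simp [h.c0]
  | succ n ih =>
    have := h.cs_bounds (-(n : ℤ) - 1)
    rw [sub_add_cancel] at this
    have e : -((n + 1 : ℕ) : ℤ) = -(n : ℤ) - 1 := by push_cast; ring
    rw [e]; push_cast; omega

/-- every position lies in a block -/
lemma FP.block (h : FP u c) (n : ℤ) : ∃ m : ℤ, c m ≤ n ∧ n < c (m + 1) := by
  induction n using Int.induction_on with
  | zero => exact ⟨0, by rw [h.c0], by have := h.cs_bounds 0; rw [h.c0] at this; omega⟩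
  | succ n ih =>
    obtain ⟨m, h1, h2⟩ := ih
    rcases lt_or_ge ((n : ℤ) + 1) (c (m + 1)) with h3 | h3
    · exact ⟨m, by omega, h3⟩
    · exact ⟨m + 1, h3, by have := h.cs_bounds (m + 1); omega⟩
  | pred n ih =>
    obtain ⟨m, h1, h2⟩ := ih
    rcases le_or_gt (c m) (-(n : ℤ) - 1) with h3 | h3
    · exact ⟨m, h3, by omega⟩
    · exact ⟨m - 1, by have := h.cs_bounds (m - 1); rw [sub_add_cancel] at this; omega,
        by rw [sub_add_cancel]; omega⟩

lemma FP.mono (h : FP u c) {m n : ℤ} (hmn : m ≤ n) : c m ≤ c n := by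
  obtain ⟨d, rfl⟩ := Int.le.dest hmn
  induction d with
  | zero => simp
  | succ d ih =>
    have := h.cs_bounds (m + d)
    have h2 := ih (by omega)
    have e : m + ((d + 1 : ℕ) : ℤ) = m + d + 1 := by push_cast; ring
    rw [e]; omega

lemma FP.small (h : FP u c) {m n : ℤ} (h1 : c m ≤ n) (h2 : n < c (m + 1)) :
    (n = 0 ∧ m = 0) ∨ (n = -1 ∧ m = -1) ∨ m.natAbs < n.natAbs := by
  rcases lt_trichotomy m 0 with hm | hm | hm
  · -- m < 0
    have h3 : n < 0 := by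
      have := h.mono (show m + 1 ≤ 0 by omega)
      rw [h.c0] at this; omega
    rcases eq_or_ne m (-1) with h4 | h4
    · subst h4
      rcases eq_or_ne n (-1) with h5 | h5
      · right; left; exact ⟨h5, rfl⟩
      · right; right; omega
    · right; right
      have h5 := h.c_le ((-(m + 1)).toNat)
      have h6 : (((-(m + 1)).toNat : ℕ) : ℤ) = -(m + 1) := Int.toNat_of_nonneg (by omega)
      rw [h6] at h5
      simp only [neg_neg] at h5
      omega
  · subst hm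
    rw [h.c0] at h1
    rcases eq_or_ne n 0 with h5 | h5
    · left; exact ⟨h5, rfl⟩
    · right; right; omega
  · right; right
    have h5 := h.c_ge (m.toNat)
    have h6 : ((m.toNat : ℕ) : ℤ) = m := Int.toNat_of_nonneg (by omega)
    rw [h6] at h5
    omega

/-- Decomposition of positions of letter `a`. -/
lemma FP.dec (h : FP u c) (n : ℤ) : ∃ m : ℤ,
    ((n = 0 ∧ m = 0) ∨ (n = -1 ∧ m = -1) ∨ m.natAbs < n.natAbs) ∧
    ((u n = 0 ∧ ((Z u n = th * Z u m) ∨ (u m = 0 ∧ Z u n = th * Z u m + 1))) ∨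
     (u n = 1 ∧ ((u m = 0 ∧ (Z u n = th * Z u m + 2 ∨ Z u n = th * Z u m + 2 + w ∨
        Z u n = th * Z u m + 2 + 2 * w)) ∨
        (u m = 1 ∧ (Z u n = th * Z u m + 1 ∨ Z u n = th * Z u m + 1 + w))))) := by
  obtain ⟨m, h1, h2⟩ := h.block n
  refine ⟨m, h.small h1 h2, ?_⟩
  have hz := h.Zc m
  rcases letter (u m) with hm | hm
  · obtain ⟨hc, a0, a1, a2, a3, a4⟩ := h.stepa hm
    obtain ⟨z1, z2, z3, z4, z5⟩ := h.Za hm
    rw [hc] at h2
    rw [hz] at z1 z2 z3 z4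
    have : n = c m ∨ n = c m + 1 ∨ n = c m + 2 ∨ n = c m + 3 ∨ n = c m + 4 := by omega
    rcases this with rfl | rfl | rfl | rfl | rfl
    · left; exact ⟨a0, Or.inl hz⟩
    · left; exact ⟨a1, Or.inr ⟨hm, z1⟩⟩
    · right; exact ⟨a2, Or.inl ⟨hm, Or.inl z2⟩⟩
    · right; exact ⟨a3, Or.inl ⟨hm, Or.inr (Or.inl z3)⟩⟩
    · right; exact ⟨a4, Or.inl ⟨hm, Or.inr (Or.inr z4)⟩⟩
  · obtain ⟨hc, a0, a1, a2⟩ := h.stepb hm
    obtain ⟨z1, z2, z3⟩ := h.Zb hm
    rw [hc] at h2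
    rw [hz] at z1 z2
    have : n = c m ∨ n = c m + 1 ∨ n = c m + 2 := by omega
    rcases this with rfl | rfl | rfl
    · left; exact ⟨a0, Or.inl hz⟩
    · right; exact ⟨a1, Or.inr ⟨hm, Or.inl z1⟩⟩
    · right; exact ⟨a2, Or.inr ⟨hm, Or.inr z2⟩⟩

lemma FP.u_zero (h : FP u c) : u 0 = 0 := by
  have := h.c0
  rcases letter (u 0) with hm | hm
  · exact hm
  · have := (h.stepb hm).2.1
    rwa [h.c0] at this

lemma FP.u_pred (h : FP u c) (m : ℤ) : u (c m - 1) = 1 := by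
  rcases letter (u (m - 1)) with hm | hm
  · have h1 := h.stepa hm
    rw [sub_add_cancel] at h1
    rw [h1.1]
    convert h1.2.2.2.2.2 using 2; ring
  · have h1 := h.stepb hm
    rw [sub_add_cancel] at h1
    rw [h1.1]
    convert h1.2.2.2 using 2; ring

lemma FP.Z_neg_one (h : FP u c) : Z u (-1) = -w := by
  have h1 := Z_succ u (-1)
  have h2 := h.u_pred 0
  rw [h.c0] at h2
  norm_num at h1 h2
  rw [Z_zero, h2, v1] at h1
  linarith

/-- upper bound for positions of `a` -/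
def Ma : ℝ := 1 / (1 - th)

lemma Ma_eq : th * Ma + 1 = Ma := by
  have : (1 - th) ≠ 0 := by linarith [th_hi]
  unfold Ma; field_simp; ring
lemma Ma_hi : Ma < 1.3662 := by
  unfold Ma; rw [div_lt_iff₀ (by linarith [th_hi])]; nlinarith [th_hi]
lemma Ma_lo : 1.365 < Ma := by
  unfold Ma; rw [lt_div_iff₀ (by linarith [th_hi])]; nlinarith [th_lo]

lemma FP.bounds (h : FP u c) : ∀ (N : ℕ) (n : ℤ), n.natAbs = N →
    (u n = 0 → 0 ≤ Z u n ∧ Z u n ≤ Ma) ∧ (u n = 1 → -w ≤ Z u n ∧ Z u n ≤ th * Ma + 2) := by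
  intro N
  induction N using Nat.strong_induction_on with
  | _ N ih =>
    intro n hn
    have t0 := th_pos; have t1 := th_hi; have t2 := th_lo; have w1 := w_lo; have w2 := w_hi
    have M1 := Ma_hi; have M2 := Ma_lo; have M3 := Ma_eq
    obtain ⟨m, hs, hd⟩ := h.dec n
    have base : (n = 0) → ((u n = 0 → 0 ≤ Z u n ∧ Z u n ≤ Ma) ∧
        (u n = 1 → -w ≤ Z u n ∧ Z u n ≤ th * Ma + 2)) := by
      rintro rfl
      rw [h.u_zero, Z_zero]
      exact ⟨fun _ => ⟨le_rfl, by linarith⟩, fun h => by simp at h⟩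
    have base' : (n = -1) → ((u n = 0 → 0 ≤ Z u n ∧ Z u n ≤ Ma) ∧
        (u n = 1 → -w ≤ Z u n ∧ Z u n ≤ th * Ma + 2)) := by
      rintro rfl
      have h2 := h.u_pred 0
      rw [h.c0] at h2
      norm_num at h2
      rw [h2, h.Z_neg_one]
      exact ⟨fun h => by simp at h, fun _ => ⟨le_rfl, by nlinarith⟩⟩
    rcases hs with ⟨h1, -⟩ | ⟨h1, -⟩ | hlt
    · exact base h1
    · exact base' h1
    · obtain ⟨ia, ib⟩ := ih m.natAbs (by omega) m rfl
      have hall : 0 ≤ Z u m ∧ Z u m ≤ th * Ma + 2 := by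
        rcases letter (u m) with hm | hm
        · obtain ⟨p, q⟩ := ia hm
          exact ⟨p, by nlinarith⟩
        · obtain ⟨p, q⟩ := ib hm
          exact ⟨by linarith, q⟩
      constructor
      · intro hu
        rcases hd with ⟨-, hz | ⟨hm, hz⟩⟩ | ⟨h1, -⟩
        · rw [hz]; exact ⟨by nlinarith, by nlinarith⟩
        · obtain ⟨p, q⟩ := ia hm
          rw [hz]; exact ⟨by nlinarith, by nlinarith⟩
        · rw [hu] at h1; simp at h1
      · intro hu
        rcases hd with ⟨h1, -⟩ | ⟨-, ⟨hm, hz⟩ | ⟨hm, hz⟩⟩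
        · rw [hu] at h1; simp at h1
        · obtain ⟨p, q⟩ := ia hm
          rcases hz with hz | hz | hz <;> rw [hz] <;> constructor <;> nlinarith
        · obtain ⟨p, q⟩ := ib hm
          have vb := val_b
          rcases hz with hz | hz <;> rw [hz] <;> constructor <;> nlinarith

lemma FP.bda (h : FP u c) {n : ℤ} (hn : u n = 0) : 0 ≤ Z u n ∧ Z u n ≤ Ma :=
  (h.bounds _ n rfl).1 hn
lemma FP.bdb (h : FP u c) {n : ℤ} (hn : u n = 1) : -w ≤ Z u n ∧ Z u n ≤ th * Ma + 2 :=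
  (h.bounds _ n rfl).2 hn
lemma FP.nonneg (h : FP u c) (n : ℤ) : 0 ≤ Z u n := by
  rcases letter (u n) with hm | hm
  · exact (h.bda hm).1
  · linarith [(h.bdb hm).1, w_hi]

end Pool.Agent.Lib.MP_7cf8a2_an
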