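import Mathlib

/-!
# Rauzy fractals of substitutions

Letters are the elements of `Fin k`, words are lists, a substitution is a map from letters to
words.
-/

set_option autoImplicit false

noncomputable section

open scoped ENNReal

namespace Pool.Agent.Lib.MP_7cf8a2_an

variable {k : ℕ}

/-- Incidence matrix: the entry `(i, j)` is the number of occurrences of `i` in `σ j`. -/
def inc (σ : Fin k → List (Fin k)) : Matrix (Fin k) (Fin k) ℤ :=
  fun i j => ((σ j).count i : ℤ)

/-- `σ` is a unimodular irreducible Pisot substitution and `lam` is its dominant eigenvalue: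
the incidence matrix has determinant `±1` and irreducible characteristic polynomial over `ℚ`,
`lam > 1` is an eigenvalue and all other complex eigenvalues have modulus less than one. -/
structure IsUnimodularIrreduciblePisot (σ : Fin k → List (Fin k)) (lam : ℝ) : Prop where
  nonempty : ∀ j, σ j ≠ []
  unimodular : |(inc σ).det| = 1
  irreducible : Irreducible ((inc σ).charpoly.map (Int.castRingHom ℚ))
  root : ((inc σ).charpoly.map (Int.castRingHom ℝ)).IsRoot lam
  one_lt : 1 < lam
  conj_lt : ∀ z : ℂ, ((inc σ).charpoly.map (Int.castRingHom ℂ)).IsRoot z → z ≠ (lam : ℂ) →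
    ‖z‖ < 1

/-- The space `ℝ^k` with its Euclidean metric. -/
abbrev V (k : ℕ) : Type := EuclideanSpace ℝ (Fin k)

/-- The eigenspace `E^u` of the eigenvalue `lam` of `M`. -/
def Eu (M : Matrix (Fin k) (Fin k) ℤ) (lam : ℝ) : Set (V k) :=
  {x | ∀ i, ∑ j, (M i j : ℝ) * x j = lam * x i}

/-- The range of `M - lam`. When `lam` is a simple root of the characteristic polynomial this is
the sum `E^s` of the (generalised) eigenspaces of all the other eigenvalues. -/
def Es (M : Matrix (Fin k) (Fin k) ℤ) (lam : ℝ) : Set (V k) :=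
  {x | ∃ y : V k, ∀ i, x i = ∑ j, (M i j : ℝ) * y j - lam * y i}

/-- `y` is the projection of `x` to `E^s` along `E^u`. -/
def IsProj (M : Matrix (Fin k) (Fin k) ℤ) (lam : ℝ) (x y : V k) : Prop :=
  y ∈ Es M lam ∧ x - y ∈ Eu M lam

/-- `u` is a two-sided fixed point of `σ`: writing the words `σ (u m)`, `m ∈ ℤ`, one after the
other, with `σ (u 0)` starting at position `0`, gives `u`. Here `c m` is the position at which
`σ (u m)` starts. -/
def IsFixedPoint (σ : Fin k → List (Fin k)) (u : ℤ → Fin k) : Prop :=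
  ∃ c : ℤ → ℤ, c 0 = 0 ∧ (∀ m : ℤ, c (m + 1) = c m + (σ (u m)).length) ∧
    ∀ (m : ℤ) (j : ℕ) (h : j < (σ (u m)).length), u (c m + j) = (σ (u m))[j]

/-- The point `L_n` of `ℤ^k`: `e_{u_0} + ... + e_{u_n}` for `n ≥ 0` and
`-(e_{u_{n-1}} + ... + e_{u_{-1}})` for `n < 0`. -/
def L (u : ℤ → Fin k) (n : ℤ) : V k :=
  if 0 ≤ n then ∑ i ∈ Finset.Icc 0 n, EuclideanSpace.single (u i) (1 : ℝ)
  else - ∑ i ∈ Finset.Icc (n - 1) (-1), EuclideanSpace.single (u i) (1 : ℝ)

/-- The Rauzy fractal attached to a fixed point `u`: the closure of the set of the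
projections of the points `L_n` to `E^s` along `E^u`. -/
def rauzy (M : Matrix (Fin k) (Fin k) ℤ) (lam : ℝ) (u : ℤ → Fin k) : Set (V k) :=
  closure {y | ∃ n : ℤ, IsProj M lam (L u n) y}

/-- The topological boundary of `A ⊆ E^s` in `E^s`. -/
def bd (M : Matrix (Fin k) (Fin k) ℤ) (lam : ℝ) (A : Set (V k)) : Set (V k) :=
  closure A ∩ closure (Es M lam \ A)

/-- Hausdorff dimension of the boundary of `A ⊆ E^s` in `E^s`. -/
def bdDim (M : Matrix (Fin k) (Fin k) ℤ) (lam : ℝ) (A : Set (V k)) : ℝ≥0∞ :=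
  dimH (bd M lam A)

/-- The reverse substitution: `i` is sent to `σ i` read backwards. -/
def rev (σ : Fin k → List (Fin k)) : Fin k → List (Fin k) := fun i => (σ i).reverse

/-- The substitution `a ↦ aabbb, b ↦ abb`, with `a = 0` and `b = 1`. -/
def sig : Fin 2 → List (Fin 2) := ![[0, 0, 1, 1, 1], [0, 1, 1]]

/-- The number `2 + √3`. -/
def lam : ℝ := 2 + √3

end Pool.Agent.Lib.MP_7cf8a2_an
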