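import Pool.Agent.Lib.MP_7cf8a2_an.Local

/-! Lower bound for the dimension of the boundary. -/

set_option autoImplicit false

noncomputable section

namespace Pool.Agent.Lib.MP_7cf8a2_an

open Set Filter Topology
open scoped NNReal ENNReal

variable {u : ℤ → Fin 2} {c : ℤ → ℤ}

/-- From the Cantor set to the interval. -/
def code (x : ℝ) : ℝ := Real.ofDigits (b := 2) (Function.invFun psi x)

lemma code_psi (d : ℕ → Fin 2) : code (psi d) = Real.ofDigits (b := 2) d := by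
  unfold code; rw [Function.leftInverse_invFun psi_inj d]

lemma code_holder : HolderOnWith 2 (1 / 6) code (range psi) := by
  rintro _ ⟨d, rfl⟩ _ ⟨e, rfl⟩
  rw [code_psi, code_psi]
  by_cases hde : d = e
  · subst hde; simp
  have hex : ∃ n, d n ≠ e n := by
    by_contra hcon
    push Not at hcon
    exact hde (funext hcon)
  classical
  set n := Nat.find hex with hn
  have h1 : d n ≠ e n := Nat.find_spec hex
  have h2 : ∀ i < n, d i = e i := fun i hi => by
    by_contra h3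
    exact Nat.find_min hex hi h3
  have h3 := psi_sep n d e h2 h1
  have h4 := Real.abs_ofDigits_sub_ofDigits_le (b := 2) (x := d) (y := e) (n := n) h2
  have key : |Real.ofDigits (b := 2) d - Real.ofDigits (b := 2) e| ≤
      2 * |psi d - psi e| ^ ((1 / 6 : ℝ)) := by
    have h5 : ((1 / 2 : ℝ) ^ (n + 1)) ^ 6 ≤ |psi d - psi e| := by
      refine le_trans ?_ h3
      have h6 : ((1 / 2 : ℝ) ^ (n + 1)) ^ 6 = (1 / 2) ^ 6 * ((1 / 2) ^ 6) ^ n := by
        rw [← pow_mul, ← pow_mul, ← pow_add]; congr 1; ring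
      rw [h6]
      have h7 : (1 / 2 : ℝ) ^ 6 ≤ th := by
        have := th_lo; norm_num at *; linarith
      have h8 : ((1 / 2 : ℝ) ^ 6) ^ n ≤ r ^ n := pow_le_pow_left₀ (by positivity) r_lo n
      exact mul_le_mul h7 h8 (by positivity) th_pos.le
    have h9 : (1 / 2 : ℝ) ^ (n + 1) ≤ |psi d - psi e| ^ ((1 / 6 : ℝ)) := by
      have h10 := Real.rpow_le_rpow (by positivity) h5 (show (0 : ℝ) ≤ 1 / 6 by norm_num)
      have h11 : (((1 / 2 : ℝ) ^ (n + 1)) ^ 6) ^ ((1 / 6 : ℝ)) = (1 / 2 : ℝ) ^ (n + 1) := by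
        have := Real.pow_rpow_inv_natCast (x := (1 / 2 : ℝ) ^ (n + 1)) (n := 6) (by positivity)
          (by norm_num)
        simpa using this
      rwa [h11] at h10
    have h12 : (((2 : ℕ) : ℝ) ^ n)⁻¹ = 2 * (1 / 2 : ℝ) ^ (n + 1) := by
      rw [pow_succ]; push_cast; rw [one_div, inv_pow]; ring
    rw [h12] at h4
    linarith
  rw [edist_dist, edist_dist, Real.dist_eq, Real.dist_eq,
    ENNReal.ofReal_rpow_of_nonneg (abs_nonneg _) (by positivity)]
  have e2 : ((2 : ℝ≥0) : ℝ≥0∞) = ENNReal.ofReal 2 := by simp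
  rw [e2, ← ENNReal.ofReal_mul (by norm_num)]
  refine ENNReal.ofReal_le_ofReal ?_
  convert key using 3
  norm_num

lemma dim_psi : (1 / 6 : ℝ≥0∞) ≤ dimH (range psi) := by
  have h1 := code_holder.dimH_image_le (by positivity)
  have h2 : Ico (0 : ℝ) 1 ⊆ code '' range psi := by
    intro x hx
    refine ⟨psi (Real.digits x 2), ⟨_, rfl⟩, ?_⟩
    rw [code_psi]
    exact Real.ofDigits_digits (by norm_num) hx
  have h3 : dimH (Ico (0 : ℝ) 1) = 1 := by
    have : (interior (Ico (0 : ℝ) 1)).Nonempty := by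
      rw [interior_Ico]; exact ⟨1 / 2, by norm_num, by norm_num⟩
    rw [Real.dimH_of_nonempty_interior this]; simp
  have h4 : (1 : ℝ≥0∞) ≤ dimH (range psi) / ((1 / 6 : ℝ≥0) : ℝ≥0∞) := by
    rw [← h3]; exact (dimH_mono h2).trans h1
  have h5 : ((1 / 6 : ℝ≥0) : ℝ≥0∞) ≠ 0 := by simp
  have h6 : ((1 / 6 : ℝ≥0) : ℝ≥0∞) ≠ ⊤ := ENNReal.coe_ne_top
  rw [ENNReal.le_div_iff_mul_le (Or.inl h5) (Or.inl h6), one_mul] at h4
  convert h4 using 1
  simp

lemma FP.dim_frontier (h : FP u c) : (1 / 6 : ℝ≥0∞) ≤ dimH (frontier (X u)) :=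
  dim_psi.trans (dimH_mono (by rintro _ ⟨d, rfl⟩; exact h.psi_mem d))

end Pool.Agent.Lib.MP_7cf8a2_an
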