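import Pool.Agent.Lib.MP_7cf8a2_an.Geom

/-! Fixed points: reversal and existence. -/

set_option autoImplicit false
noncomputable section
namespace Pool.Agent.Lib.MP_7cf8a2_an
open Set Filter Topology

section general
variable {k : ℕ}

lemma rev_rev (σ : Fin k → List (Fin k)) : rev (rev σ) = σ := by
  funext i; simp [rev]

lemma inc_rev (σ : Fin k → List (Fin k)) : inc (rev σ) = inc σ := by
  ext i j; simp [inc, rev, List.count_reverse]

/-- reversing a fixed point -/
lemma IsFixedPoint.reverse {σ : Fin k → List (Fin k)} {u : ℤ → Fin k} (h : IsFixedPoint σ u) :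
    IsFixedPoint (rev σ) (fun n => u (-1 - n)) := by
  obtain ⟨c, h0, h1, h2⟩ := h
  have e1 : ∀ m : ℤ, c (-m) = c (-1 - m) + (σ (u (-1 - m))).length := by
    intro m
    have := h1 (-1 - m)
    rw [← this]; congr 1; ring
  refine ⟨fun m => -c (-m), by simp [h0], ?_, ?_⟩
  · intro m
    have e2 := e1 m
    have e3 : -(m + 1) = -1 - m := by ring
    simp only [rev, List.length_reverse]
    rw [e3]; omega
  · intro m j hj
    simp only [rev, List.length_reverse] at hj ⊢
    have e2 := e1 m
    have e4 : -1 - (-c (-m) + (j : ℤ)) =
        c (-1 - m) + (((σ (u (-1 - m))).length - 1 - j : ℕ) : ℤ) := by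
      rw [e2]; omega
    rw [e4, h2 (-1 - m) _ (by omega), List.getElem_reverse]

/-- iterates of the letter `x` -/
def W (τ : Fin k → List (Fin k)) (x : Fin k) : ℕ → List (Fin k)
  | 0 => [x]
  | N + 1 => (W τ x N).flatMap τ

lemma W_prefix (τ : Fin k → List (Fin k)) (x : Fin k) (hx : [x] <+: τ x) (N : ℕ) :
    W τ x N <+: W τ x (N + 1) := by
  induction N with
  | zero => simpa [W] using hx
  | succ N ih =>
    obtain ⟨t, ht⟩ := ih
    exact ⟨t.flatMap τ, by
      show (W τ x N).flatMap τ ++ t.flatMap τ = (W τ x (N + 1)).flatMap τ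
      rw [← List.flatMap_append, ht]⟩

lemma W_prefix_le (τ : Fin k → List (Fin k)) (x : Fin k) (hx : [x] <+: τ x) {N N' : ℕ}
    (hN : N ≤ N') : W τ x N <+: W τ x N' := by
  induction hN with
  | refl => exact List.prefix_refl _
  | step _ ih => exact ih.trans (W_prefix τ x hx _)

lemma flat_len (τ : Fin k → List (Fin k)) (hl : ∀ y, 2 ≤ (τ y).length) (l : List (Fin k)) :
    2 * l.length ≤ (l.flatMap τ).length := by
  induction l with
  | nil => simp
  | cons a l ih =>
    rw [List.flatMap_cons, List.length_append, List.length_cons]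
    have := hl a
    omega

lemma W_len (τ : Fin k → List (Fin k)) (x : Fin k) (hl : ∀ y, 2 ≤ (τ y).length) (N : ℕ) :
    N < (W τ x N).length := by
  induction N with
  | zero => simp [W]
  | succ N ih =>
    have := flat_len τ hl (W τ x N)
    show N + 1 < ((W τ x N).flatMap τ).length
    omega

lemma exists_right (τ : Fin k → List (Fin k)) (x : Fin k) (hx : [x] <+: τ x)
    (hl : ∀ y, 2 ≤ (τ y).length) :
    ∃ (w : ℕ → Fin k) (c : ℕ → ℕ), c 0 = 0 ∧ (∀ m, c (m + 1) = c m + (τ (w m)).length) ∧
      ∀ m j (h : j < (τ (w m)).length), w (c m + j) = (τ (w m))[j] := by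
  set w : ℕ → Fin k := fun n => (W τ x n)[n]'(W_len τ x hl n) with hw
  have key : ∀ N n (h : n < (W τ x N).length), (W τ x N)[n] = w n := by
    intro N n h
    rcases le_total N n with hle | hle
    · exact (W_prefix_le τ x hx hle).getElem h
    · exact ((W_prefix_le τ x hx hle).getElem (W_len τ x hl n)).symm
  have take : ∀ m N, m ≤ (W τ x N).length → (List.range m).map w = (W τ x N).take m := by
    intro m N hm
    apply List.ext_getElem
    · simp [hm]
    · intro i h1 h2
      simp only [List.length_map, List.length_range] at h1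
      rw [List.getElem_take, key N i (by omega)]
      simp
  refine ⟨w, fun m => (((List.range m).map w).flatMap τ).length, by simp, ?_, ?_⟩
  · intro m
    simp only [List.range_succ, List.map_append, List.map_cons, List.map_nil, List.flatMap_append,
      List.length_append, List.flatMap_cons, List.flatMap_nil, List.append_nil]
  · intro m j hj
    have h1 : ((List.range (m + 1)).map w).flatMap τ <+: W τ x (m + 2) := by
      rw [take (m + 1) (m + 1) (W_len τ x hl (m + 1)).le]
      show _ <+: (W τ x (m + 1)).flatMap τ
      obtain ⟨t, ht⟩ := List.take_prefix (m + 1) (W τ x (m + 1))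
      refine ⟨t.flatMap τ, ?_⟩
      rw [← List.flatMap_append, ht]
    have h2 : ((List.range (m + 1)).map w).flatMap τ =
        ((List.range m).map w).flatMap τ ++ τ (w m) := by
      simp [List.range_succ]
    rw [h2] at h1
    have h3 : (((List.range m).map w).flatMap τ).length + j <
        (((List.range m).map w).flatMap τ ++ τ (w m)).length := by
      rw [List.length_append]; omega
    have h4 := h1.getElem h3
    rw [key] at h4
    simp only
    rw [← h4, List.getElem_append_right (by omega)]
    simp

lemma exists_fixed (σ : Fin k → List (Fin k)) (x y : Fin k) (hx : [x] <+: σ x)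
    (hy : [y] <+: (rev σ) y) (hl : ∀ y, 2 ≤ (σ y).length) : ∃ u : ℤ → Fin k, IsFixedPoint σ u := by
  obtain ⟨w, c, h0, h1, h2⟩ := exists_right σ x hx hl
  obtain ⟨w', c', h0', h1', h2'⟩ := exists_right (rev σ) y hy (by simpa [rev] using hl)
  refine ⟨fun n => if 0 ≤ n then w n.toNat else w' (-1 - n).toNat,
    fun m => if 0 ≤ m then (c m.toNat : ℤ) else -(c' (-m).toNat : ℤ), by simp [h0], ?_, ?_⟩
  · intro m
    by_cases hm : 0 ≤ m
    · have e : (m + 1).toNat = m.toNat + 1 := by omega
      simp only [hm, if_true, show 0 ≤ m + 1 by omega, e, h1]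
      push_cast; ring
    · by_cases hm1 : m = -1
      · subst hm1
        have := h1' 0
        simp only [zero_add, h0', rev, List.length_reverse] at this
        simp [h0, this]
      · have e : (-m).toNat = (-(m + 1)).toNat + 1 := by omega
        have e' : (-1 - m).toNat = (-(m + 1)).toNat := by omega
        have := h1' (-(m + 1)).toNat
        simp only [rev, List.length_reverse] at this
        simp only [hm, if_false, show ¬ (0 ≤ m + 1) by omega, e, e', this]
        push_cast; ring
  · intro m j hj
    by_cases hm : 0 ≤ m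
    · simp only [hm, if_true] at hj ⊢
      have e1 : (0 : ℤ) ≤ (c m.toNat : ℤ) + j := by positivity
      have e2 : ((c m.toNat : ℤ) + j).toNat = c m.toNat + j := by omega
      simp only [e1, if_true, e2]
      exact h2 _ _ hj
    · simp only [hm, if_false] at hj ⊢
      set M := (-1 - m).toNat with hM
      have e : (-m).toNat = M + 1 := by omega
      have h3 := h1' M
      simp only [rev, List.length_reverse] at h3
      have e1 : ¬ (0 : ℤ) ≤ -((c' (-m).toNat : ℕ) : ℤ) + j := by
        rw [e, h3]; push_cast; omega
      simp only [e1, if_false]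
      have e2 : (-1 - (-((c' (-m).toNat : ℕ) : ℤ) + j)).toNat =
          c' M + ((σ (w' M)).length - 1 - j) := by
        rw [e, h3]; push_cast; omega
      rw [e2, h2' M _ (by simp only [rev, List.length_reverse]; omega)]
      simp only [rev]
      rw [List.getElem_reverse]
      congr 1
      omega

end general

end Pool.Agent.Lib.MP_7cf8a2_an
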