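import Pool.Agent.Lib.MP_7cf8a2_an.Dim

/-! Linear algebra of the incidence matrix of the substitution. -/

set_option autoImplicit false
noncomputable section
namespace Pool.Agent.Lib.MP_7cf8a2_an
open Set Filter Topology Polynomial


lemma inc_sig : inc sig = !![2, 1; 3, 2] := by
  ext i j
  fin_cases i <;> fin_cases j <;> simp [inc, sig]

lemma charpoly_sig : (inc sig).charpoly = Polynomial.X ^ 2 - C 4 * Polynomial.X + C 1 := by
  rw [inc_sig, Matrix.charpoly_fin_two]
  simp [Matrix.trace_fin_two, Matrix.det_fin_two]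

lemma pisot : IsUnimodularIrreduciblePisot sig lam := by
  refine ⟨?_, ?_, ?_, ?_, ?_, ?_⟩
  · intro j; fin_cases j <;> simp [sig]
  · rw [inc_sig]; simp [Matrix.det_fin_two]
  · rw [charpoly_sig]
    have hm : ((Polynomial.X ^ 2 - C 4 * Polynomial.X + C 1 : ℤ[X]).map (Int.castRingHom ℚ)) = Polynomial.X ^ 2 - C 4 * Polynomial.X + C 1 := by
      simp
      exact (map_ofNat C 4).symm
    rw [hm]
    have hmon : (Polynomial.X ^ 2 - C 4 * Polynomial.X + C 1 : ℚ[X]).Monic := by monicity!
    have hdeg : (Polynomial.X ^ 2 - C 4 * Polynomial.X + C 1 : ℚ[X]).natDegree = 2 := by compute_degree!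
    rw [hmon.irreducible_iff_roots_eq_zero_of_degree_le_three (by rw [hdeg]) (by rw [hdeg]; norm_num)]
    rw [Multiset.eq_zero_iff_forall_notMem]
    intro q hq
    rw [mem_roots hmon.ne_zero] at hq
    simp [IsRoot] at hq
    have h3 : ((q : ℝ) - 2) ^ 2 = 3 := by
      have : ((q ^ 2 - 4 * q + 1 : ℚ) : ℝ) = 0 := by rw [hq]; simp
      push_cast at this
      linarith
    have hirr : Irrational √3 := by
      have := Nat.Prime.irrational_sqrt (show Nat.Prime 3 by norm_num)
      simpa using this
    have h4 : |(q : ℝ) - 2| = √3 := by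
      rw [← h3, Real.sqrt_sq_eq_abs]
    apply hirr
    refine ⟨|q - 2|, ?_⟩
    rw [← h4]; push_cast; rfl
  · rw [charpoly_sig]
    simp [IsRoot, lam]
    nlinarith [sq3]
  · unfold lam; have := s3_lo; linarith
  · intro z hz hne
    rw [charpoly_sig] at hz
    simp [IsRoot] at hz
    have h3 : ((√3 : ℝ) : ℂ) * ((√3 : ℝ) : ℂ) = 3 := by rw [← Complex.ofReal_mul, sq3]; simp
    have hf : (z - (lam : ℂ)) * (z - ((th : ℝ) : ℂ)) = 0 := by
      unfold lam th; push_cast
      linear_combination hz - h3
    rcases mul_eq_zero.mp hf with h | h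
    · exact absurd (sub_eq_zero.mp h) hne
    · rw [sub_eq_zero.mp h, Complex.norm_real, Real.norm_eq_abs, abs_of_pos th_pos]
      linarith [th_hi]

abbrev E := EuclideanSpace ℝ (Fin 2)

lemma act0 (x : E) : (act (inc sig) x) 0 = 2 * x 0 + x 1 := by
  rw [inc_sig]; simp [act, Matrix.toEuclideanLin, Matrix.mulVec, dotProduct, Fin.sum_univ_two]
lemma act1 (x : E) : (act (inc sig) x) 1 = 3 * x 0 + 2 * x 1 := by
  rw [inc_sig]; simp [act, Matrix.toEuclideanLin, Matrix.mulVec, dotProduct, Fin.sum_univ_two]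


/-- left eigenvector of the contracting eigenvalue -/
def val (x : E) : ℝ := x 0 + w * x 1
/-- left eigenvector of the expanding eigenvalue -/
def val' (x : E) : ℝ := x 0 - w * x 1

lemma val_add (x y : E) : val (x + y) = val x + val y := by simp [val]; ring
lemma val_smul (t : ℝ) (x : E) : val (t • x) = t * val x := by simp [val]; ring
lemma w_sq : w * w = 1 / 3 := by unfold w; nlinarith [sq3]
lemma s3w : √3 = -3 * w := by unfold w; ring

lemma mem_Eu {x : E} : x ∈ sEu (inc sig) lam ↔ (act (inc sig) x = lam • x) := by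
  unfold sEu
  rw [LinearMap.mem_ker]
  simp [sub_eq_zero]

lemma val_of_mem_Eu {x : E} (hx : x ∈ sEu (inc sig) lam) : val x = 0 := by
  rw [mem_Eu] at hx
  have h0 : (act (inc sig) x) 0 = (lam • x) 0 := by rw [hx]
  rw [act0] at h0
  simp [lam] at h0
  unfold val
  have h2 : 0 = √3 * (x 0 + w * x 1) := by
    have : √3 * w = -1 := by rw [s3w]; nlinarith [w_sq]
    linear_combination h0 - x 1 * this
  have h3 : √3 ≠ 0 := by have := s3_lo; positivity
  rcases mul_eq_zero.mp h2.symm with h | h
  · exact absurd h h3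
  · exact h

lemma mem_Eu_of_val {x : E} (hx : val x = 0) : x ∈ sEu (inc sig) lam := by
  rw [mem_Eu]
  unfold val at hx
  have h3 : √3 * w = -1 := by rw [s3w]; nlinarith [w_sq]
  have hx0 : x 0 = - w * x 1 := by linarith
  ext i
  fin_cases i
  · simp only [Fin.zero_eta, Fin.isValue]
    rw [act0]; simp [lam]
    rw [hx0]; linear_combination (x 1) * h3
  · simp only [Fin.mk_one, Fin.isValue]
    rw [act1]; simp [lam]
    rw [hx0, s3w]; ring

/-- unit vector of `E^s` -/
def nv : E := !₂[1 / 2, -(√3 / 2)]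

lemma val_nv : val nv = 1 := by
  simp [val, nv, w]; nlinarith [sq3]

lemma val'_of_mem_Es {x : E} (hx : x ∈ sEs (inc sig) lam) : val' x = 0 := by
  obtain ⟨y, rfl⟩ := hx
  unfold val'
  simp only [LinearMap.sub_apply, LinearMap.smul_apply, LinearMap.id_apply, PiLp.sub_apply,
    PiLp.smul_apply, act0, act1, smul_eq_mul, lam]
  rw [s3w]; linear_combination (-3 * y 1) * w_sq

lemma nv_mem : nv ∈ sEs (inc sig) lam := by
  refine ⟨!₂[-√3 / 12, 1 / 4], ?_⟩
  ext i
  fin_cases i
  · simp only [Fin.zero_eta, Fin.isValue, LinearMap.sub_apply, LinearMap.smul_apply,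
      LinearMap.id_apply, PiLp.sub_apply, PiLp.smul_apply, act0, smul_eq_mul, lam]
    simp [nv]; nlinarith [sq3]
  · simp only [Fin.mk_one, Fin.isValue, LinearMap.sub_apply, LinearMap.smul_apply,
      LinearMap.id_apply, PiLp.sub_apply, PiLp.smul_apply, act1, smul_eq_mul, lam]
    simp [nv]; nlinarith [sq3]

lemma eq_of_vals {x y : E} (h1 : val x = val y) (h2 : val' x = val' y) : x = y := by
  unfold val at h1
  unfold val' at h2
  have hw : w ≠ 0 := by have := w_hi; linarith
  ext i
  fin_cases i
  · simp only [Fin.zero_eta, Fin.isValue]; linarith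
  · simp only [Fin.mk_one, Fin.isValue]
    have : w * x 1 = w * y 1 := by linarith
    exact mul_left_cancel₀ hw this

lemma val'_smul_nv (t : ℝ) : val' (t • nv) = 0 :=
  val'_of_mem_Es (Submodule.smul_mem _ t nv_mem)

lemma isCompl : IsCompl (sEs (inc sig) lam) (sEu (inc sig) lam) := by
  constructor
  · rw [Submodule.disjoint_def]
    intro x h1 h2
    refine eq_of_vals ?_ ?_
    · rw [val_of_mem_Eu h2]; simp [val]
    · rw [val'_of_mem_Es h1]; simp [val']
  · rw [codisjoint_iff, eq_top_iff]
    intro x _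
    rw [Submodule.mem_sup]
    refine ⟨val x • nv, Submodule.smul_mem _ _ nv_mem, x - val x • nv, mem_Eu_of_val ?_, by abel⟩
    have := val_add x (-(val x • nv))
    rw [← sub_eq_add_neg] at this
    rw [this, ← neg_smul, val_smul, val_nv]; ring

/-- parametrisation of `E^s` -/
def io (t : ℝ) : sEs (inc sig) lam := ⟨t • nv, Submodule.smul_mem _ _ nv_mem⟩

lemma proj_eq (h : IsCompl (sEs (inc sig) lam) (sEu (inc sig) lam)) (x : E) :
    Submodule.projectionOnto _ _ h x = io (val x) := by
  have h1 : x = (io (val x) : E) + (x - val x • nv) := by simp [io]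
  have h2 : x - val x • nv ∈ sEu (inc sig) lam := by
    apply mem_Eu_of_val
    have := val_add x (-(val x • nv))
    rw [← sub_eq_add_neg] at this
    rw [this, ← neg_smul, val_smul, val_nv]; ring
  conv_lhs => rw [h1]
  rw [map_add]
  have h3 : Submodule.projectionOnto (sEs (inc sig) lam) (sEu (inc sig) lam) h (io (val x) : E) =
      io (val x) := by simp
  have h4 : Submodule.projectionOnto (sEs (inc sig) lam) (sEu (inc sig) lam) h (x - val x • nv) =
      0 := (Submodule.projectionOnto_apply_eq_zero_iff h).2 h2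
  rw [h3, h4, add_zero]

lemma norm_nv : ‖nv‖ = 1 := by
  rw [EuclideanSpace.norm_eq, Fin.sum_univ_two]
  simp [nv, div_pow]
  norm_num

/-- `E^s` is isometric to the line. -/
def iso : ℝ ≃ᵢ sEs (inc sig) lam where
  toFun := io
  invFun := fun x => val x
  left_inv := fun t => by simp [io, val_smul, val_nv]
  right_inv := fun x => by
    apply Subtype.ext
    refine eq_of_vals ?_ ?_
    · simp [io, val_smul, val_nv]
    · rw [val'_of_mem_Es x.2]; exact val'_smul_nv _
  isometry_toFun := by
    refine Isometry.of_dist_eq fun s t => ?_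
    rw [Subtype.dist_eq]
    simp only [io]
    rw [dist_eq_norm, ← sub_smul, norm_smul, norm_nv, mul_one, Real.dist_eq, Real.norm_eq_abs]

end Pool.Agent.Lib.MP_7cf8a2_an
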