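import Pool.Agent.Lib.MP_7cf8a2_an.Core

/-! Local structure of the closure of the positions; a Cantor set in its boundary. -/

set_option autoImplicit false

noncomputable section

namespace Pool.Agent.Lib.MP_7cf8a2_an

open Set Filter Topology

variable {u : ℤ → Fin 2} {c : ℤ → ℤ}

/-- The closure of the set of positions. -/
def X (u : ℤ → Fin 2) : Set ℝ := closure (range (Z u))

lemma X_closed (u : ℤ → Fin 2) : IsClosed (X u) := isClosed_closure

lemma FP.X_nonneg (h : FP u c) {x : ℝ} (hx : x ∈ X u) : 0 ≤ x := by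
  have : X u ⊆ Ici 0 := closure_minimal (by rintro _ ⟨n, rfl⟩; exact h.nonneg n) isClosed_Ici
  exact this hx

lemma X_zero (u : ℤ → Fin 2) : (0 : ℝ) ∈ X u := subset_closure ⟨0, Z_zero u⟩

/-- a continuous map sending positions to positions preserves the closure -/
lemma X_map {u : ℤ → Fin 2} {f : ℝ → ℝ} (hf : Continuous f) (h : ∀ n, ∃ m, f (Z u n) = Z u m)
    {x : ℝ} (hx : x ∈ X u) : f x ∈ X u := by
  have : f '' (closure (range (Z u))) ⊆ closure (f '' range (Z u)) := image_closure_subset_closure_image hf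
  have h2 : closure (f '' range (Z u)) ⊆ X u := by
    apply closure_mono
    rintro _ ⟨_, ⟨n, rfl⟩, rfl⟩
    obtain ⟨m, hm⟩ := h n
    exact ⟨m, hm.symm⟩
  exact h2 (this ⟨x, hx, rfl⟩)

lemma FP.X_mul (h : FP u c) {x : ℝ} (hx : x ∈ X u) : th * x ∈ X u :=
  X_map (f := fun x => th * x) (by fun_prop) (fun n => ⟨c n, (h.Zc n).symm⟩) hx

lemma FP.X_two (h : FP u c) {x : ℝ} (hx : x ∈ X u) : 2 + th ^ 2 * x ∈ X u := by
  refine X_map (f := fun x => 2 + th ^ 2 * x) (by fun_prop) (fun n => ⟨c (c n) + 2, ?_⟩) hx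
  have h1 : u (c n) = 0 := by
    rcases letter (u n) with hm | hm
    · exact (h.stepa hm).2.1
    · exact (h.stepb hm).2.1
  have h2 := (h.Za h1).2.1
  rw [h2, h.Zc, h.Zc]; ring

/-- general pull back principle -/
lemma X_pull {u : ℤ → Fin 2} {f g : ℝ → ℝ} (hg : Continuous g) (hfg : ∀ x, g (f x) = x)
    (hgf : ∀ x, f (g x) = x) {U : Set ℝ} (hU : IsOpen U)
    (h : ∀ n, Z u n ∈ U → ∃ m, Z u n = f (Z u m)) {x : ℝ} (hx : x ∈ X u) (hxU : x ∈ U) :
    ∃ y ∈ X u, x = f y := by
  refine ⟨g x, ?_, (hgf x).symm⟩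
  have h1 : x ∈ closure (range (Z u) ∩ U) := by
    have hx' : x ∈ closure (range (Z u)) := hx
    rw [mem_closure_iff] at hx' ⊢
    intro V hV hxV
    obtain ⟨z, hz1, hz2⟩ := hx' (V ∩ U) (hV.inter hU) ⟨hxV, hxU⟩
    exact ⟨z, hz1.1, hz2, hz1.2⟩
  have h2 : g x ∈ closure (g '' (range (Z u) ∩ U)) :=
    image_closure_subset_closure_image hg ⟨x, h1, rfl⟩
  refine closure_mono ?_ h2
  rintro _ ⟨_, ⟨⟨n, rfl⟩, hn⟩, rfl⟩
  obtain ⟨m, hm⟩ := h n hn
  rw [hm, hfg]; exact ⟨m, rfl⟩

lemma FP.pull_low (h : FP u c) {x : ℝ} (hx : x ∈ X u) (hxw : x < -w) :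
    ∃ y ∈ X u, x = th * y := by
  have t0 := th_pos
  refine X_pull (f := fun x => th * x) (g := fun x => x / th) (by fun_prop)
    (fun x => by field_simp) (fun x => by field_simp) (isOpen_Iio (a := -w)) ?_ hx hxw
  intro n hn
  have w1 := w_lo; have w2 := w_hi
  simp only [mem_Iio] at hn
  obtain ⟨m, -, hd⟩ := h.dec n
  rcases hd with ⟨-, hz | ⟨hm, hz⟩⟩ | ⟨hb, -⟩
  · exact ⟨m, hz⟩
  · have := (h.bda hm).1
    nlinarith
  · linarith [(h.bdb hb).1]

lemma FP.pull_two (h : FP u c) {x : ℝ} (hx : x ∈ X u) (h1 : 1.8 < x) (h2 : x < 2 + th) :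
    ∃ y ∈ X u, x = 2 + th ^ 2 * y := by
  have t0 := th_pos
  refine X_pull (f := fun x => 2 + th ^ 2 * x) (g := fun x => (x - 2) / th ^ 2) (by fun_prop)
    (fun x => by field_simp; ring) (fun x => by field_simp; ring)
    (isOpen_Ioo (a := (1.8 : ℝ)) (b := 2 + th)) ?_ hx ⟨h1, h2⟩
  intro n hn
  have w1 := w_lo; have w2 := w_hi; have t1 := th_hi; have t2 := th_lo
  have M1 := Ma_hi; have M2 := Ma_lo; have M3 := Ma_eq
  obtain ⟨hn1, hn2⟩ := hn
  obtain ⟨m, -, hd⟩ := h.dec n
  rcases hd with ⟨ha, -⟩ | ⟨-, ⟨hm, hz⟩ | ⟨hm, hz⟩⟩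
  · have := (h.bda ha).2; linarith
  · obtain ⟨p, q⟩ := h.bda hm
    rcases hz with hz | hz | hz
    · -- main case
      have hm1 : Z u m < 1 := by
        rw [hz] at hn2
        by_contra hcon
        push Not at hcon
        nlinarith
      obtain ⟨m', -, hd'⟩ := h.dec m
      rcases hd' with ⟨-, hz' | ⟨hm', hz'⟩⟩ | ⟨hb, -⟩
      · exact ⟨m', by rw [hz, hz']; ring⟩
      · have := (h.bda hm').1
        nlinarith
      · rw [hm] at hb; simp at hb
    · rw [hz] at hn1; nlinarith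
    · rw [hz] at hn1; nlinarith
  · obtain ⟨p, q⟩ := h.bdb hm
    rcases hz with hz | hz
    · rw [hz] at hn1; nlinarith
    · rw [hz] at hn1; nlinarith

/-- points of `X` below `1` that are isolated in `X` from the left -/
def B (u : ℤ → Fin 2) : Set ℝ :=
  {x | x ∈ X u ∧ x < 1 ∧ ∃ ε > 0, ∀ y ∈ X u, y < x → y ≤ x - ε}

lemma FP.B_zero (h : FP u c) : (0 : ℝ) ∈ B u :=
  ⟨X_zero u, one_pos, 1, one_pos, fun _ hy hy0 => absurd (h.X_nonneg hy) (not_le.mpr hy0)⟩

lemma FP.B_mul (h : FP u c) {x : ℝ} (hx : x ∈ B u) : th * x ∈ B u := by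
  obtain ⟨hx1, hx2, ε, he, hx3⟩ := hx
  have t0 := th_pos; have t1 := th_hi; have w2 := w_hi
  refine ⟨h.X_mul hx1, by nlinarith, th * ε, by positivity, ?_⟩
  intro y hy hyx
  obtain ⟨z, hz, rfl⟩ := h.pull_low hy (by nlinarith)
  have : z < x := lt_of_mul_lt_mul_left hyx t0.le
  have := hx3 z hz this
  nlinarith

lemma FP.B_two (h : FP u c) {x : ℝ} (hx : x ∈ B u) : 2 * th + th ^ 3 * x ∈ B u := by
  obtain ⟨hx1, hx2, ε, he, hx3⟩ := hx
  have hx0 := h.X_nonneg hx1
  have t0 := th_pos; have t1 := th_hi; have w2 := w_hi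
  have t2 : th ^ 2 < 0.072 := by nlinarith
  have t2p : 0 < th ^ 2 := by positivity
  have t3 : th ^ 3 < 0.02 := by nlinarith
  have t3p : 0 < th ^ 3 := by positivity
  have e : 2 * th + th ^ 3 * x = th * (2 + th ^ 2 * x) := by ring
  refine ⟨by rw [e]; exact h.X_mul (h.X_two hx1), by nlinarith,
    th * min 0.2 (th ^ 2 * ε), by positivity, ?_⟩
  intro y hy hyx
  obtain ⟨z, hz, rfl⟩ := h.pull_low hy (by nlinarith)
  rw [e] at hyx ⊢
  have hzx : z < 2 + th ^ 2 * x := lt_of_mul_lt_mul_left hyx t0.le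
  rw [← mul_sub]
  refine mul_le_mul_of_nonneg_left ?_ t0.le
  rcases le_or_gt z 1.8 with h8 | h8
  · have : min 0.2 (th ^ 2 * ε) ≤ 0.2 := min_le_left _ _
    nlinarith
  · obtain ⟨z', hz', rfl⟩ := h.pull_two hz h8 (by nlinarith)
    have h4 : z' < x := by
      have : th ^ 2 * z' < th ^ 2 * x := by linarith
      exact lt_of_mul_lt_mul_left this t2p.le
    have h5 := hx3 z' hz' h4
    have : min 0.2 (th ^ 2 * ε) ≤ th ^ 2 * ε := min_le_right _ _
    nlinarith

lemma B_subset_frontier (u : ℤ → Fin 2) : B u ⊆ frontier (X u) := by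
  rintro x ⟨hx1, -, ε, he, hx3⟩
  rw [frontier, (X_closed u).closure_eq]
  refine ⟨hx1, fun hint => ?_⟩
  rw [mem_interior_iff_mem_nhds, Metric.mem_nhds_iff] at hint
  obtain ⟨δ, hd, hb⟩ := hint
  have hm : 0 < min δ ε := lt_min hd he
  have h1 : x - min δ ε / 2 ∈ X u := by
    apply hb
    rw [Metric.mem_ball, Real.dist_eq]
    have : x - min δ ε / 2 - x = -(min δ ε / 2) := by ring
    rw [this, abs_neg, abs_of_pos (by positivity)]
    linarith [min_le_left δ ε]
  have h2 := hx3 _ h1 (by linarith)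
  linarith [min_le_right δ ε]

/-- The contraction ratio of the Cantor set. -/
def r : ℝ := th ^ 3

lemma r_pos : 0 < r := by unfold r; exact pow_pos th_pos 3
lemma r_hi : r < 0.02 := by
  unfold r
  have t0 := th_pos; have t1 := th_hi
  have t2 : th ^ 2 < 0.072 := by nlinarith
  have t2p : 0 < th ^ 2 := by positivity
  nlinarith
lemma r_lo : (1 / 2 : ℝ) ^ 6 ≤ r := by
  unfold r
  have t0 := th_pos; have t1 := th_lo
  have t2 : 0.0717 < th ^ 2 := by nlinarith
  nlinarith

/-- Coding of the Cantor set. -/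
def psi (d : ℕ → Fin 2) : ℝ := ∑' n, 2 * th * (d n : ℕ) * r ^ n

lemma dig_le (x : Fin 2) : ((x : ℕ) : ℝ) ≤ 1 := by
  have := x.is_lt
  exact_mod_cast (by omega : (x : ℕ) ≤ 1)

lemma psi_summable (d : ℕ → Fin 2) : Summable fun n => 2 * th * (d n : ℕ) * r ^ n := by
  have t0 := th_pos
  refine Summable.of_nonneg_of_le (fun n => ?_) (fun n => ?_)
    ((summable_geometric_of_lt_one r_pos.le (by linarith [r_hi])).mul_left (2 * th))
  · have := r_pos; positivity
  · have h1 := dig_le (d n)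
    have h2 : 0 ≤ r ^ n := pow_nonneg r_pos.le n
    have : 2 * th * (d n : ℕ) * r ^ n ≤ 2 * th * 1 * r ^ n := by gcongr
    linarith

lemma psi_rec (d : ℕ → Fin 2) : psi d = 2 * th * (d 0 : ℕ) + r * psi (fun n => d (n + 1)) := by
  unfold psi
  rw [(psi_summable d).tsum_eq_zero_add, ← tsum_mul_left]
  congr 1
  · simp
  · congr 1; ext n; rw [pow_succ]; ring

lemma psi_nonneg (d : ℕ → Fin 2) : 0 ≤ psi d := by
  have t0 := th_pos
  have := r_pos
  exact tsum_nonneg fun n => by positivity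

lemma psi_le (d : ℕ → Fin 2) : psi d ≤ 1 := by
  have t0 := th_pos; have t1 := th_hi
  have hr := r_pos
  have h1 : psi d ≤ ∑' n : ℕ, 2 * th * r ^ n := by
    refine Summable.tsum_le_tsum (fun n => ?_) (psi_summable d)
      ((summable_geometric_of_lt_one r_pos.le (by linarith [r_hi])).mul_left (2 * th))
    have h1 := dig_le (d n)
    have h2 : 0 ≤ r ^ n := pow_nonneg r_pos.le n
    have : 2 * th * (d n : ℕ) * r ^ n ≤ 2 * th * 1 * r ^ n := by gcongr
    linarith
  rw [tsum_mul_left, tsum_geometric_of_lt_one hr.le (by linarith [r_hi])] at h1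
  have h2 : 2 * th * (1 - r)⁻¹ ≤ 1 := by
    rw [← div_eq_mul_inv, div_le_one (by linarith [r_hi])]
    linarith [r_hi]
  linarith

lemma FP.psi_partial (h : FP u c) (N : ℕ) : ∀ d : ℕ → Fin 2,
    ∑ n ∈ Finset.range N, 2 * th * (d n : ℕ) * r ^ n ∈ B u := by
  induction N with
  | zero => intro d; simpa using h.B_zero
  | succ N ih =>
    intro d
    rw [Finset.sum_range_succ']
    have h1 := ih (fun n => d (n + 1))
    have h2 : ∑ n ∈ Finset.range N, 2 * th * (d (n + 1) : ℕ) * r ^ (n + 1) =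
        r * ∑ n ∈ Finset.range N, 2 * th * (d (n + 1) : ℕ) * r ^ n := by
      rw [Finset.mul_sum]
      refine Finset.sum_congr rfl fun n _ => ?_
      rw [pow_succ]; ring
    rw [h2]
    rcases letter (d 0) with h0 | h0
    · have h3 := h.B_mul (h.B_mul (h.B_mul h1))
      rw [h0]
      convert h3 using 1
      simp [r]; ring
    · have h3 := h.B_two h1
      rw [h0]
      convert h3 using 1
      simp [r]; ring

lemma FP.psi_mem (h : FP u c) (d : ℕ → Fin 2) : psi d ∈ frontier (X u) := by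
  have h1 := (psi_summable d).hasSum.tendsto_sum_nat
  exact isClosed_frontier.mem_of_tendsto h1
    (Eventually.of_forall fun N => B_subset_frontier u (h.psi_partial N d))

/-- Separation of codes. -/
lemma psi_sep (n : ℕ) : ∀ d e : ℕ → Fin 2, (∀ i < n, d i = e i) → d n ≠ e n →
    th * r ^ n ≤ |psi d - psi e| := by
  have t0 := th_pos; have t1 := th_lo
  have hr := r_pos; have hr2 := r_hi
  induction n with
  | zero =>
    intro d e _ hne
    rw [psi_rec d, psi_rec e]
    set D := psi fun n => d (n + 1)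
    set E := psi fun n => e (n + 1)
    have d1 : 0 ≤ D := psi_nonneg _
    have d2 : D ≤ 1 := psi_le _
    have e1 : 0 ≤ E := psi_nonneg _
    have e2 : E ≤ 1 := psi_le _
    rcases letter (d 0) with h0 | h0 <;> rcases letter (e 0) with h1 | h1
    · exact absurd (h0.trans h1.symm) hne
    · rw [h0, h1, abs_sub_comm]
      refine le_trans ?_ (le_abs_self _)
      simp; nlinarith
    · rw [h0, h1]
      refine le_trans ?_ (le_abs_self _)
      simp; nlinarith
    · exact absurd (h0.trans h1.symm) hne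
  | succ n ih =>
    intro d e hlt hne
    have h1 := ih (fun n => d (n + 1)) (fun n => e (n + 1)) (fun i hi => hlt (i + 1) (by omega)) hne
    rw [psi_rec d, psi_rec e, hlt 0 (by omega)]
    have : 2 * th * (e 0 : ℕ) + r * psi (fun n => d (n + 1)) -
        (2 * th * (e 0 : ℕ) + r * psi (fun n => e (n + 1))) =
        r * (psi (fun n => d (n + 1)) - psi (fun n => e (n + 1))) := by ring
    rw [this, abs_mul, abs_of_pos hr, pow_succ]
    nlinarith

lemma psi_inj : Function.Injective psi := by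
  intro d e hde
  by_contra hne
  have hex : ∃ n, d n ≠ e n := by
    by_contra hcon
    push Not at hcon
    exact hne (funext hcon)
  classical
  have h1 := Nat.find_spec hex
  have h2 : ∀ i < Nat.find hex, d i = e i := fun i hi => by
    by_contra h3
    exact Nat.find_min hex hi h3
  have h3 := psi_sep _ d e h2 h1
  rw [hde, sub_self, abs_zero] at h3
  have := mul_pos th_pos (pow_pos r_pos (Nat.find hex))
  linarith

end Pool.Agent.Lib.MP_7cf8a2_an
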