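import Pool.Agent.Lib.MP_7cf8a2_an.Fixed

/-! The two Rauzy fractals meet only at the origin. -/

set_option autoImplicit false
noncomputable section
namespace Pool.Agent.Lib.MP_7cf8a2_an
open Set Filter Topology
open scoped ENNReal

lemma val_single (i : Fin 2) : val (EuclideanSpace.single i (1 : ℝ)) = v i := by
  fin_cases i <;> simp [val, v]

lemma val_sum (s : Finset ℤ) (f : ℤ → E) : val (∑ i ∈ s, f i) = ∑ i ∈ s, val (f i) := by
  unfold val
  simp [Finset.sum_add_distrib, Finset.mul_sum]

lemma val_neg (x : E) : val (-x) = - val x := by simp [val]; ring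

lemma val_L (u : ℤ → Fin 2) (n : ℤ) : val (L u n) = if 0 ≤ n then Z u (n + 1) else Z u (n - 1) := by
  unfold L Z
  by_cases hn : 0 ≤ n
  · have h1 : Finset.Ico (n + 1) 0 = ∅ := Finset.Ico_eq_empty (by omega)
    have h2 : Finset.Icc 0 n = Finset.Ico 0 (n + 1) := by
      ext i; simp only [Finset.mem_Ico, Finset.mem_Icc]; omega
    simp only [hn, if_true, h1, Finset.sum_empty, sub_zero, h2, val_sum, val_single]
  · have h1 : Finset.Ico 0 (n - 1) = ∅ := Finset.Ico_eq_empty (by omega)
    have h2 : Finset.Icc (n - 1) (-1) = Finset.Ico (n - 1) 0 := by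
      ext i; simp only [Finset.mem_Ico, Finset.mem_Icc]; omega
    simp only [hn, if_false, h1, Finset.sum_empty, zero_sub, h2, val_neg, val_sum, val_single]

lemma range_val_L (u : ℤ → Fin 2) :
    (range fun n => val (L u n)) = Z u '' {m | 1 ≤ m ∨ m ≤ -2} := by
  ext y
  constructor
  · rintro ⟨n, rfl⟩
    simp only [val_L]
    by_cases hn : 0 ≤ n
    · simp only [hn, if_true]; exact ⟨n + 1, Or.inl (by omega), rfl⟩
    · simp only [hn, if_false]; exact ⟨n - 1, Or.inr (by omega), rfl⟩
  · rintro ⟨m, hm | hm, rfl⟩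
    · refine ⟨m - 1, ?_⟩
      simp only [val_L, show 0 ≤ m - 1 by omega, if_true, sub_add_cancel]
    · refine ⟨m + 1, ?_⟩
      simp only [val_L, show ¬ (0 ≤ m + 1) by omega, if_false, add_sub_cancel_right]

lemma rauzy_eq (h : IsCompl (sEs (inc sig) lam) (sEu (inc sig) lam)) (u : ℤ → Fin 2) :
    srauzy h u = iso '' closure (Z u '' {m | 1 ≤ m ∨ m ≤ -2}) := by
  unfold srauzy
  have h1 : (range fun n : ℤ => Submodule.projectionOnto (sEs (inc sig) lam) (sEu (inc sig) lam) h
      (L u n)) = iso '' (range fun n => val (L u n)) := by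
    rw [← range_comp]
    congr 1
    funext n
    exact proj_eq h (L u n)
  rw [h1, range_val_L]
  exact (iso.toHomeomorph.image_closure _).symm

variable {u : ℤ → Fin 2} {c : ℤ → ℤ}

/-- iterates of a position -/
def it (c : ℤ → ℤ) (m : ℤ) : ℕ → ℤ
  | 0 => m
  | N + 1 => c (it c m N)

lemma FP.Z_it (h : FP u c) (m : ℤ) (N : ℕ) : Z u (it c m N) = th ^ N * Z u m := by
  induction N with
  | zero => simp [it]
  | succ N ih => simp only [it]; rw [h.Zc, ih]; ring

lemma FP.it_pos (h : FP u c) (N : ℕ) : 1 ≤ it c 1 N := by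
  induction N with
  | zero => simp [it]
  | succ N ih =>
    simp only [it]
    have h1 := h.mono ih
    have h2 := h.c_ge 1
    push_cast at h2
    omega

lemma FP.it_neg (h : FP u c) (N : ℕ) : it c (-1) N ≤ -1 := by
  induction N with
  | zero => simp [it]
  | succ N ih =>
    simp only [it]
    have h1 := h.mono ih
    have h2 := h.c_le 1
    push_cast at h2
    omega

lemma th_tendsto : Tendsto (fun N : ℕ => th ^ N) atTop (𝓝 0) :=
  tendsto_pow_atTop_nhds_zero_of_lt_one th_pos.le (by linarith [th_hi])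

lemma FP.zero_lim (h : FP u c) (s : Set ℤ) (hs : ∀ N, it c 1 N ∈ s) :
    (0 : ℝ) ∈ closure (Z u '' s) := by
  have h1 : Tendsto (fun N : ℕ => Z u (it c 1 N)) atTop (𝓝 0) := by
    simp only [h.Z_it]
    simpa using th_tendsto.mul_const (Z u 1)
  exact mem_closure_of_tendsto h1 (Eventually.of_forall fun N => ⟨_, hs N, rfl⟩)

lemma FP.closure_eq (h : FP u c) : closure (Z u '' {m | 1 ≤ m ∨ m ≤ -2}) = X u := by
  apply Subset.antisymm
  · exact closure_mono (image_subset_range _ _)
  · apply closure_minimal _ isClosed_closure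
    rintro _ ⟨n, rfl⟩
    by_cases hn : 1 ≤ n ∨ n ≤ -2
    · exact subset_closure ⟨n, hn, rfl⟩
    · have : n = 0 ∨ n = -1 := by omega
      rcases this with rfl | rfl
      · rw [Z_zero]
        exact h.zero_lim _ fun N => Or.inl (h.it_pos N)
      · rw [h.Z_neg_one]
        have h1 : Tendsto (fun N : ℕ => Z u (it c (-1) (N + 1) - 1)) atTop (𝓝 (-w)) := by
          have h2 : ∀ N : ℕ, Z u (it c (-1) (N + 1) - 1) = th ^ (N + 1) * (-w) - w := by
            intro N
            have h3 := Z_succ u (it c (-1) (N + 1) - 1)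
            rw [sub_add_cancel, h.Z_it, h.Z_neg_one] at h3
            have h4 : u (it c (-1) (N + 1) - 1) = 1 := h.u_pred _
            rw [h4, v1] at h3
            linarith
          simp only [h2]
          have h5 := ((tendsto_add_atTop_iff_nat 1).2 th_tendsto).mul_const (-w)
          have h6 := h5.sub_const w
          simpa using h6
        refine mem_closure_of_tendsto h1 (Eventually.of_forall fun N => ⟨_, Or.inr ?_, rfl⟩)
        have := h.it_neg (N + 1)
        omega

lemma Z_reverse (u : ℤ → Fin 2) (n : ℤ) : Z u n = -Z (fun n => u (-1 - n)) (-n) := by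
  set u' := fun n => u (-1 - n) with hu'
  have key : ∀ n : ℤ, Z u (n + 1) + Z u' (-(n + 1)) = Z u n + Z u' (-n) := by
    intro n
    have h1 := Z_succ u n
    have h2 := Z_succ u' (-(n + 1))
    have e : -(n + 1) + 1 = -n := by ring
    rw [e] at h2
    have h3 : u' (-(n + 1)) = u n := by simp [hu']
    rw [h3] at h2
    linarith
  have : Z u n + Z u' (-n) = 0 := by
    induction n using Int.induction_on with
    | zero => simp [Z_zero]
    | succ n ih => rw [key]; exact ih
    | pred n ih =>
      have := key (-(n : ℤ) - 1)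
      rw [sub_add_cancel] at this
      rw [← this]; exact ih
  linarith

lemma inter_eq (h : IsCompl (sEs (inc sig) lam) (sEu (inc sig) lam)) {u u' : ℤ → Fin 2}
    (hu : IsFixedPoint sig u) (hu' : IsFixedPoint (rev sig) u') :
    srauzy h u ∩ srauzy h u' = {0} := by
  obtain ⟨c, c1, c2, c3⟩ := hu
  have F : FP u c := ⟨c1, c2, c3⟩
  have hr := hu'.reverse
  rw [rev_rev] at hr
  obtain ⟨c', c1', c2', c3'⟩ := hr
  have F' : FP (fun n => u' (-1 - n)) c' := ⟨c1', c2', c3'⟩
  rw [rauzy_eq, rauzy_eq, F.closure_eq, ← image_inter iso.injective]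
  have key : X u ∩ closure (Z u' '' {m | 1 ≤ m ∨ m ≤ -2}) = {0} := by
    apply Subset.antisymm
    · rintro x ⟨hx1, hx2⟩
      have h1 := F.X_nonneg hx1
      have h2 : x ≤ 0 := by
        have : closure (Z u' '' {m | 1 ≤ m ∨ m ≤ -2}) ⊆ Iic 0 := by
          apply closure_minimal _ isClosed_Iic
          rintro _ ⟨m, -, rfl⟩
          rw [mem_Iic, Z_reverse]
          have := F'.nonneg (-m)
          linarith
        exact this hx2
      exact le_antisymm h2 h1
    · rw [singleton_subset_iff]
      refine ⟨X_zero u, ?_⟩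
      have h1 : Tendsto (fun N : ℕ => Z u' (-(it c' (-1) (N + 1)))) atTop (𝓝 0) := by
        have h2 : ∀ N : ℕ, Z u' (-(it c' (-1) (N + 1))) = th ^ (N + 1) * w := by
          intro N
          rw [Z_reverse, neg_neg, F'.Z_it, F'.Z_neg_one]; ring
        simp only [h2]
        simpa using ((tendsto_add_atTop_iff_nat 1).2 th_tendsto).mul_const w
      refine mem_closure_of_tendsto h1 (Eventually.of_forall fun N => ⟨_, Or.inl ?_, rfl⟩)
      have := F'.it_neg (N + 1)
      omega
  rw [key, image_singleton]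
  congr 1
  apply Subtype.ext
  show (0 : ℝ) • nv = _
  simp

lemma frontier_dim (h : IsCompl (sEs (inc sig) lam) (sEu (inc sig) lam)) {u : ℤ → Fin 2}
    (hu : IsFixedPoint sig u) : (1 / 6 : ℝ≥0∞) ≤ dimH (frontier (srauzy h u)) := by
  obtain ⟨c, c1, c2, c3⟩ := hu
  have F : FP u c := ⟨c1, c2, c3⟩
  rw [rauzy_eq, F.closure_eq]
  have : frontier (iso '' X u) = iso '' frontier (X u) :=
    (iso.toHomeomorph.image_frontier _).symm
  rw [this, iso.isometry.dimH_image]
  exact F.dim_frontier

theorem main (h : IsCompl (sEs (inc sig) lam) (sEu (inc sig) lam)) {u u' : ℤ → Fin 2}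
    (hu : IsFixedPoint sig u) (hu' : IsFixedPoint (rev sig) u') :
    srauzy h u ∩ srauzy h u' = {0} ∧ dimH (frontier (srauzy h u ∩ srauzy h u')) = 0 ∧
      1 / 6 ≤ dimH (frontier (srauzy h u)) := by
  refine ⟨inter_eq h hu hu', ?_, frontier_dim h hu⟩
  rw [inter_eq h hu hu']
  exact dimH_subsingleton (subsingleton_singleton.anti
    (isClosed_singleton.frontier_subset))

theorem fixed_exists : ∃ u, IsFixedPoint sig u :=
  exists_fixed sig 0 1 ⟨[0, 1, 1, 1], rfl⟩ ⟨[1, 0], rfl⟩ (by intro y; fin_cases y <;> simp [sig])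

end Pool.Agent.Lib.MP_7cf8a2_an
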