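import Pool.Agent.Lib.MP_7cf8a2_an.Defs

/-! The same objects with `E^s` and `E^u` as submodules. -/

set_option autoImplicit false

noncomputable section

namespace Pool.Agent.Lib.MP_7cf8a2_an

variable {k : ℕ}

/-- The linear map of `ℝ^k` given by the integer matrix `M`. -/
def act (M : Matrix (Fin k) (Fin k) ℤ) :
    EuclideanSpace ℝ (Fin k) →ₗ[ℝ] EuclideanSpace ℝ (Fin k) :=
  Matrix.toEuclideanLin (M.map (Int.cast : ℤ → ℝ))

/-- `E^u` as a submodule. -/
def sEu (M : Matrix (Fin k) (Fin k) ℤ) (lam : ℝ) : Submodule ℝ (EuclideanSpace ℝ (Fin k)) :=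
  LinearMap.ker (act M - lam • LinearMap.id)

/-- `E^s` as a submodule. -/
def sEs (M : Matrix (Fin k) (Fin k) ℤ) (lam : ℝ) : Submodule ℝ (EuclideanSpace ℝ (Fin k)) :=
  LinearMap.range (act M - lam • LinearMap.id)

/-- The Rauzy fractal as a subset of the submodule. -/
def srauzy {M : Matrix (Fin k) (Fin k) ℤ} {lam : ℝ} (h : IsCompl (sEs M lam) (sEu M lam))
    (u : ℤ → Fin k) : Set (sEs M lam) :=
  closure (Set.range fun n : ℤ => Submodule.projectionOnto (sEs M lam) (sEu M lam) h (L u n))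

end Pool.Agent.Lib.MP_7cf8a2_an
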